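import Pool.Agent.Helper41.LD4.Defs
import Pool.Agent.Helper95.LD3.Gen

/-!
# Project LD4, block GM: generators of a mixed family
-/

set_option autoImplicit false

namespace Pool.Agent.Helper83.LD4

open Pool.Agent.Helper41.LD (Dioph)
open Pool.Agent.Helper41.LD4

private theorem gens83 (P : ℝ → Prop) (hroot : ∀ t : ℝ, 1 < t → P t → ∀ v : ℕ, 1 ≤ v → P (t ^ ((1 : ℝ) / v)))
    (θ : ℕ → ℝ) (m : ℕ) (hθ : ∀ i < m, 1 < θ i ∧ P (θ i)) :
    ∃ (g : ℕ) (τ : ℕ → ℝ) (cl a : ℕ → ℕ), (∀ h < g, 1 < τ h ∧ P (τ h)) ∧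
      (∀ h < g, ∀ h' < g, h ≠ h' → Irrational (Real.log (τ h) / Real.log (τ h'))) ∧
      ∀ i < m, cl i < g ∧ 1 ≤ a i ∧ θ i = τ (cl i) ^ a i := by
  classical
  induction m with
  | zero => exact ⟨0, fun _ => 2, fun _ => 0, fun _ => 1, by simp, by simp, by simp⟩
  | succ m ih =>
    obtain ⟨g, τ, cl, a, h1, h2, h3⟩ := ih fun i hi => hθ i (by omega)
    obtain ⟨hm1, hm2⟩ := hθ m (by omega)
    have hlm : 0 < Real.log (θ m) := Real.log_pos hm1
    by_cases hr : ∃ h < g, ¬ Irrational (Real.log (θ m) / Real.log (τ h))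
    · obtain ⟨h, hg, hnr⟩ := hr
      have hτ1 := (h1 h hg).1
      have hτ0 : 0 < τ h := by linarith
      have hlτ : 0 < Real.log (τ h) := Real.log_pos hτ1
      -- the rational ratio
      obtain ⟨r, hrr⟩ : ∃ r : ℚ, (r : ℝ) = Real.log (θ m) / Real.log (τ h) := by
        exact not_not.1 hnr
      have hr0 : 0 < r := by
        have : (0 : ℝ) < r := by rw [hrr]; positivity
        exact_mod_cast this
      set u : ℕ := r.num.toNat with hu
      set v : ℕ := r.den with hvdef
      have hv : 1 ≤ v := r.den_pos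
      have hnum : (0 : ℤ) < r.num := Rat.num_pos.2 hr0
      have hu1 : 1 ≤ u := by omega
      have hv0 : (0 : ℝ) < v := by exact_mod_cast hv
      have hruv : (r : ℝ) = u / v := by
        have e1 : ((r.num : ℤ) : ℝ) = (u : ℝ) := by
          have : r.num = (u : ℤ) := by omega
          rw [this]; simp
        rw [Rat.cast_def, e1]
      set ρ : ℝ := τ h ^ ((1 : ℝ) / v) with hρ
      have hρ1 : 1 < ρ := Real.one_lt_rpow hτ1 (by positivity)
      have hρv : ρ ^ v = τ h := by
        rw [hρ, ← Real.rpow_natCast, ← Real.rpow_mul hτ0.le, one_div, inv_mul_cancel₀ hv0.ne', Real.rpow_one]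
      have hlρ : Real.log ρ = Real.log (τ h) / v := by
        rw [hρ, Real.log_rpow hτ0]; ring
      have hθm : θ m = ρ ^ u := by
        have e1 : Real.log (θ m) = u * Real.log ρ := by
          rw [hlρ]
          have e2 : Real.log (θ m) = r * Real.log (τ h) := by rw [hrr]; field_simp
          rw [e2, hruv]; ring
        have e3 : Real.log (θ m) = Real.log (ρ ^ u) := by rw [Real.log_pow, e1]
        exact Real.log_injOn_pos (Set.mem_Ioi.2 (by linarith)) (Set.mem_Ioi.2 (by positivity)) e3
      refine ⟨g, Function.update τ h ρ, Function.update cl m h,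
        fun i => if i = m then u else if cl i = h then v * a i else a i, ?_, ?_, ?_⟩
      · intro h' hh'
        by_cases e : h' = h
        · subst e
          rw [Function.update_self]
          exact ⟨hρ1, hroot _ hτ1 (h1 h' hg).2 v hv⟩
        · rw [Function.update_of_ne e]
          exact h1 h' hh'
      · intro b hb b' hb' hne
        by_cases e : b = h
        · have e' : b' ≠ h := fun e2 => hne (e.trans e2.symm)
          subst e
          rw [Function.update_self, Function.update_of_ne e', hlρ]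
          have e4 : Real.log (τ b) / v / Real.log (τ b') = Real.log (τ b) / Real.log (τ b') / ((v : ℕ) : ℝ) := by ring
          rw [e4]
          exact (h2 b hb b' hb' hne).div_natCast (by omega)
        · by_cases e' : b' = h
          · subst e'
            rw [Function.update_self, Function.update_of_ne e, hlρ]
            have e4 : Real.log (τ b) / (Real.log (τ b') / v) = Real.log (τ b) / Real.log (τ b') * ((v : ℕ) : ℝ) := by
              field_simp
            rw [e4]
            exact (h2 b hb b' hb' hne).mul_natCast (by omega)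
          · rw [Function.update_of_ne e, Function.update_of_ne e']
            exact h2 b hb b' hb' hne
      · intro i hi
        by_cases e : i = m
        · subst e
          simp only [Function.update_self, if_true]
          exact ⟨hg, hu1, hθm⟩
        · obtain ⟨k1, k2, k3⟩ := h3 i (by omega)
          simp only [Function.update_of_ne e, if_neg e]
          by_cases e' : cl i = h
          · rw [if_pos e', e', Function.update_self]
            refine ⟨hg, Nat.one_le_iff_ne_zero.2 (Nat.mul_ne_zero (by omega) (by omega)), ?_⟩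
            rw [pow_mul, hρv, k3, e']
          · rw [if_neg e', Function.update_of_ne e']
            exact ⟨k1, k2, k3⟩
    · have hr : ∀ h < g, Irrational (Real.log (θ m) / Real.log (τ h)) := fun h hg => by
        by_contra hc
        exact hr ⟨h, hg, hc⟩
      refine ⟨g + 1, Function.update τ g (θ m), Function.update cl m g, Function.update a m 1, ?_, ?_, ?_⟩
      · intro h' hh'
        by_cases e : h' = g
        · subst e
          rw [Function.update_self]
          exact ⟨hm1, hm2⟩
        · rw [Function.update_of_ne e]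
          exact h1 h' (by omega)
      · intro b hb b' hb' hne
        by_cases e : b = g
        · have e' : b' ≠ g := fun e2 => hne (e.trans e2.symm)
          subst e
          rw [Function.update_self, Function.update_of_ne e']
          exact hr b' (by omega)
        · by_cases e' : b' = g
          · subst e'
            rw [Function.update_self, Function.update_of_ne e]
            have e4 : Real.log (τ b) / Real.log (θ m) = (Real.log (θ m) / Real.log (τ b))⁻¹ := by rw [inv_div]
            rw [e4]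
            exact (hr b (by omega)).inv
          · rw [Function.update_of_ne e, Function.update_of_ne e']
            exact h2 b (by omega) b' (by omega) hne
      · intro i hi
        by_cases e : i = m
        · subst e
          simp
        · obtain ⟨k1, k2, k3⟩ := h3 i (by omega)
          rw [Function.update_of_ne e, Function.update_of_ne e, Function.update_of_ne (by omega)]
          exact ⟨by omega, k2, k3⟩

private theorem ratPow_root83 {t : ℝ} (ht : 1 < t) (h : RatPow t) {v : ℕ} (hv : 1 ≤ v) : RatPow (t ^ ((1 : ℝ) / v)) := by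
  obtain ⟨r, hr, ρ, hρ⟩ := h
  have hv0 : (v : ℝ) ≠ 0 := by
    have : (1 : ℝ) ≤ v := by exact_mod_cast hv
    linarith
  refine ⟨v * r, Nat.mul_pos hv hr, ρ, ?_⟩
  have h1 : (t ^ ((1 : ℝ) / v)) ^ v = t := by
    rw [← Real.rpow_natCast, ← Real.rpow_mul (by linarith), one_div, inv_mul_cancel₀ hv0, Real.rpow_one]
  rw [pow_mul, h1]
  exact hρ

/-- a generator with a rational power -/
theorem ratGen_of_ratPow {t : ℝ} (ht : 1 < t) (h : RatPow t) : ∃ r p q : ℕ, RatGen t r p q := by
  classical
  obtain ⟨hr, ρ, hρ⟩ := Nat.find_spec h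
  set r := Nat.find h with hrdef
  have hmin : ∀ i, 1 ≤ i → i < r → ∀ x : ℚ, t ^ i ≠ x := by
    intro i hi hir x hx
    exact Nat.find_min h hir ⟨hi, x, hx⟩
  have ht0 : t ≠ 0 := by linarith
  have hρ1 : (1 : ℚ) < ρ := by
    have h1 : (1 : ℝ) < (ρ : ℝ) := by rw [← hρ]; exact one_lt_pow₀ ht (by omega)
    exact_mod_cast h1
  have hnum : (0 : ℤ) < ρ.num := Rat.num_pos.2 (by linarith)
  refine ⟨r, ρ.num.toNat, ρ.den, ⟨hr, ρ.den_pos, ?_, ?_, ?_, ?_⟩⟩
  · have h1 : (ρ.den : ℤ) < ρ.num := by
      have h2 : ρ = ρ.num / ρ.den := (Rat.num_div_den ρ).symm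
      have h3 : (0 : ℚ) < ρ.den := by exact_mod_cast ρ.den_pos
      rw [h2, lt_div_iff₀ h3, one_mul] at hρ1
      exact_mod_cast hρ1
    omega
  · have h1 := ρ.reduced
    have h2 : ρ.num.toNat = ρ.num.natAbs := by omega
    rw [h2]
    exact h1
  · rw [hρ]
    have h2 : ((ρ.num.toNat : ℕ) : ℝ) = ((ρ.num : ℤ) : ℝ) := by
      have : ((ρ.num.toNat : ℕ) : ℤ) = ρ.num := Int.toNat_of_nonneg hnum.le
      exact_mod_cast congrArg (fun z : ℤ => (z : ℝ)) this
    rw [h2]
    exact Rat.cast_def ρ
  · intro i hi hrat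
    obtain ⟨x, hx⟩ := hrat
    have hir : 1 ≤ i % r := by
      rcases Nat.eq_zero_or_pos (i % r) with h1 | h1
      · exact absurd (Nat.dvd_of_mod_eq_zero h1) hi
      · exact h1
    refine hmin (i % r) hir (Nat.mod_lt _ hr) (x / ρ ^ (i / r)) ?_
    have h1 : t ^ i = t ^ (i % r) * (t ^ r) ^ (i / r) := by
      rw [← pow_mul, ← pow_add, Nat.mod_add_div]
    have h2 : (t ^ r) ^ (i / r) ≠ 0 := pow_ne_zero _ (pow_ne_zero _ ht0)
    push_cast
    rw [hx, h1, ← hρ, mul_div_assoc, div_self h2, mul_one]

/-- **GM** -/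
theorem generators4 {κ : ℕ} (hκ : 1 ≤ κ) (θ : ℕ → ℝ) (m : ℕ)
    (hθ : ∀ i < m, 1 < θ i ∧ (Dioph (θ i) κ ∨ RatPow (θ i))) :
    ∃ (g : ℕ) (τ : ℕ → ℝ) (ty : ℕ → ℕ × ℕ × ℕ) (cl a : ℕ → ℕ), (∀ h < g, Ty κ (τ h) (ty h)) ∧
      (∀ h < g, ∀ h' < g, h ≠ h' → Irrational (Real.log (τ h) / Real.log (τ h'))) ∧
      ∀ i < m, cl i < g ∧ 1 ≤ a i ∧ θ i = τ (cl i) ^ a i := by
  obtain ⟨g, τ, cl, a, h1, h2, h3⟩ := gens83 (fun t => Dioph t κ ∨ RatPow t) (fun t ht h v hv => by
    rcases h with h | h
    · exact Or.inl (Pool.Agent.Helper95.LD3.dioph_root ht hκ h hv)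
    · exact Or.inr (ratPow_root83 ht h hv)) θ m hθ
  have h4 : ∀ h, ∃ ty : ℕ × ℕ × ℕ, h < g → Ty κ (τ h) ty := by
    intro h
    by_cases hg : h < g
    · obtain ⟨h5, h6 | h6⟩ := h1 h hg
      · exact ⟨(0, 0, 0), fun _ => ⟨h5, Or.inl ⟨rfl, h6⟩⟩⟩
      · obtain ⟨r, p, q, h7⟩ := ratGen_of_ratPow h5 h6
        exact ⟨(r, p, q), fun _ => ⟨h5, Or.inr h7⟩⟩
    · exact ⟨(0, 0, 0), fun h8 => absurd h8 hg⟩
  choose ty hty using h4
  exact ⟨g, τ, ty, cl, a, hty, h2, h3⟩

end Pool.Agent.Helper83.LD4
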