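import Pool.Agent.Helper41.LD4.Defs
import Pool.Agent.Helper23.LD3.TA

/-!
# Project LD4, block TM1: the bad exponents of two bases with rational powers
-/

set_option autoImplicit false

namespace Pool.Agent.Helper83.LD4

open Set Filter Topology
open Pool.Agent.Helper41.LD4
open Pool.Agent.Helper23.LD3 (Close Bad)

private theorem log_gap83 {P Q : ℕ} {T : ℝ} (hP : 1 ≤ P) (hQ : 1 ≤ Q) (hPT : Real.log P ≤ T) (hQT : Real.log Q ≤ T)
    (h : |Real.log P - Real.log Q| < Real.exp (-T)) : P = Q := by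
  by_contra hne
  have step : ∀ P Q : ℕ, 1 ≤ P → P < Q → Real.log Q ≤ T → |Real.log P - Real.log Q| < Real.exp (-T) → False := by
    intro P Q hP1 hPQ hQ2 h
    have hP0 : (0 : ℝ) < P := by exact_mod_cast hP1
    have hQ0' : 0 < Q := by omega
    have hQ0 : (0 : ℝ) < Q := by exact_mod_cast hQ0'
    have h3 := Real.one_sub_inv_le_log_of_pos (div_pos hQ0 hP0)
    rw [Real.log_div hQ0.ne' hP0.ne', inv_div] at h3
    have h4 : 1 / (Q : ℝ) ≤ 1 - P / Q := by
      rw [div_le_iff₀ hQ0, sub_mul, div_mul_cancel₀ _ hQ0.ne', one_mul]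
      have : (P : ℝ) + 1 ≤ Q := by exact_mod_cast hPQ
      linarith
    have h5 : Real.exp (-T) ≤ 1 / Q := by
      rw [Real.exp_neg, one_div]
      apply inv_anti₀ hQ0
      calc (Q : ℝ) = Real.exp (Real.log Q) := (Real.exp_log hQ0).symm
        _ ≤ _ := Real.exp_le_exp.2 hQ2
    have h6 := (abs_lt.1 h).1
    linarith
  rcases lt_or_gt_of_ne hne with h3 | h3
  · exact step P Q hP h3 hQT h
  · exact step Q P hQ h3 hPT (by rw [abs_sub_comm]; exact h)

/-- two primes at which the valuations are not proportional -/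
private theorem primes83 {x y : ℝ} (hx : 0 < x) (hirr : Irrational (y / x)) {r r' P Q P' Q' : ℕ} (hr : 1 ≤ r) (hr' : 1 ≤ r')
    (hxr : r * x = Real.log P - Real.log Q) (hyr : r' * y = Real.log P' - Real.log Q') :
    ∃ p q : ℕ, ((P.factorization p : ℤ) - Q.factorization p) * ((P'.factorization q : ℤ) - Q'.factorization q) -
      ((P.factorization q : ℤ) - Q.factorization q) * ((P'.factorization p : ℤ) - Q'.factorization p) ≠ 0 := by
  classical
  by_contra hcon
  push Not at hcon
  set S : Finset ℕ := P.primeFactors ∪ Q.primeFactors ∪ P'.primeFactors ∪ Q'.primeFactors with hS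
  have hlog : ∀ N : ℕ, N.primeFactors ⊆ S → Real.log N = ∑ p ∈ S, (N.factorization p : ℝ) * Real.log p := by
    intro N hN
    rw [Real.log_nat_eq_sum_factorization, Finsupp.sum]
    refine Finset.sum_subset ?_ ?_
    · rw [Nat.support_factorization]
      exact hN
    · intro p _ hp
      rw [Finsupp.notMem_support_iff.1 hp]
      simp
  have e1 := hlog P (fun p hp => by rw [hS]; simp only [Finset.mem_union]; exact Or.inl (Or.inl (Or.inl hp)))
  have e2 := hlog Q (fun p hp => by rw [hS]; simp only [Finset.mem_union]; exact Or.inl (Or.inl (Or.inr hp)))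
  have e3 := hlog P' (fun p hp => by rw [hS]; simp only [Finset.mem_union]; exact Or.inl (Or.inr hp))
  have e4 := hlog Q' (fun p hp => by rw [hS]; simp only [Finset.mem_union]; exact Or.inr hp)
  have hX : Real.log P - Real.log Q = ∑ p ∈ S, (((P.factorization p : ℤ) - Q.factorization p : ℤ) : ℝ) * Real.log p := by
    rw [e1, e2, ← Finset.sum_sub_distrib]
    refine Finset.sum_congr rfl fun p _ => ?_
    push_cast
    ring
  have hY : Real.log P' - Real.log Q' = ∑ p ∈ S, (((P'.factorization p : ℤ) - Q'.factorization p : ℤ) : ℝ) * Real.log p := by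
    rw [e3, e4, ← Finset.sum_sub_distrib]
    refine Finset.sum_congr rfl fun p _ => ?_
    push_cast
    ring
  have hr0 : (0 : ℝ) < r := by exact_mod_cast hr
  have hr0' : (0 : ℝ) < r' := by exact_mod_cast hr'
  obtain ⟨p₀, hp₀⟩ : ∃ p₀, (P.factorization p₀ : ℤ) - Q.factorization p₀ ≠ 0 := by
    by_contra hall
    push Not at hall
    have h1 : Real.log P - Real.log Q = 0 := by
      rw [hX]
      refine Finset.sum_eq_zero fun p _ => ?_
      rw [hall p]
      simp
    rw [h1] at hxr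
    have := mul_pos hr0 hx
    linarith
  set a₀ : ℤ := (P.factorization p₀ : ℤ) - Q.factorization p₀ with ha₀
  set b₀ : ℤ := (P'.factorization p₀ : ℤ) - Q'.factorization p₀ with hb₀
  have h1 : (a₀ : ℝ) * (Real.log P' - Real.log Q') = b₀ * (Real.log P - Real.log Q) := by
    rw [hX, hY, Finset.mul_sum, Finset.mul_sum]
    refine Finset.sum_congr rfl fun p _ => ?_
    have h2 := hcon p₀ p
    rw [← ha₀, ← hb₀] at h2
    have h3 : (a₀ : ℝ) * (((P'.factorization p : ℤ) - Q'.factorization p : ℤ) : ℝ) =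
        b₀ * (((P.factorization p : ℤ) - Q.factorization p : ℤ) : ℝ) := by
      have h4 : a₀ * ((P'.factorization p : ℤ) - Q'.factorization p) = b₀ * ((P.factorization p : ℤ) - Q.factorization p) := by
        linear_combination h2
      exact_mod_cast congrArg (fun z : ℤ => (z : ℝ)) h4
    rw [← mul_assoc, ← mul_assoc, h3]
  rw [← hyr, ← hxr] at h1
  have ha0 : (a₀ : ℝ) ≠ 0 := by exact_mod_cast hp₀
  refine hirr ⟨(b₀ * r : ℚ) / (a₀ * r' : ℚ), ?_⟩
  push_cast
  rw [div_eq_div_iff (mul_ne_zero ha0 hr0'.ne') hx.ne']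
  linear_combination -h1

/-- a relation between two bases with rational powers is exact and short -/
theorem core83 {x y : ℝ} (hx : 0 < x) (hirr : Irrational (y / x)) {r r' P Q P' Q' : ℕ} (hr : 1 ≤ r) (hr' : 1 ≤ r')
    (hP : 1 ≤ P) (hQ : 1 ≤ Q) (hP' : 1 ≤ P') (hQ' : 1 ≤ Q')
    (hxr : r * x = Real.log P - Real.log Q) (hyr : r' * y = Real.log P' - Real.log Q') :
    ∃ c : ℕ, ∀ (e : ℤ) (d A B m : ℕ) (δ E N T : ℝ), 1 ≤ A → A ≤ 2 ^ m → 1 ≤ B → B ≤ 2 ^ m →
      |(e : ℝ) * x - d * y - (Real.log A - Real.log B)| ≤ δ → |(e : ℝ)| ≤ E → (d : ℝ) ≤ N →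
      (r' * E + r * N) * (Real.log P + Real.log Q + Real.log P' + Real.log Q') + r * r' * (m * Real.log 2) ≤ T →
      r * r' * δ < Real.exp (-T) → d ≤ c * m := by
  obtain ⟨p, q, hpq⟩ := primes83 hx hirr hr hr' hxr hyr
  set f : ℕ → ℤ := fun p => (P.factorization p : ℤ) - Q.factorization p with hf
  set g : ℕ → ℤ := fun p => (P'.factorization p : ℤ) - Q'.factorization p with hg
  refine ⟨r' * ((f p).natAbs + (f q).natAbs), ?_⟩
  intro e d A B m δ E N T hA hAm hB hBm hrel hE hN hT hδ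
  have hlP : 0 ≤ Real.log P := Real.log_natCast_nonneg P
  have hlQ : 0 ≤ Real.log Q := Real.log_natCast_nonneg Q
  have hlP' : 0 ≤ Real.log P' := Real.log_natCast_nonneg P'
  have hlQ' : 0 ≤ Real.log Q' := Real.log_natCast_nonneg Q'
  have hlA : 0 ≤ Real.log A := Real.log_natCast_nonneg A
  have hlB : 0 ≤ Real.log B := Real.log_natCast_nonneg B
  have P0 : (P : ℝ) ≠ 0 := by positivity
  have Q0 : (Q : ℝ) ≠ 0 := by positivity
  have P0' : (P' : ℝ) ≠ 0 := by positivity
  have Q0' : (Q' : ℝ) ≠ 0 := by positivity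
  have A0 : (A : ℝ) ≠ 0 := by positivity
  have B0 : (B : ℝ) ≠ 0 := by positivity
  have hlAm : ∀ A : ℕ, 1 ≤ A → A ≤ 2 ^ m → Real.log A ≤ m * Real.log 2 := by
    intro A hA hAm
    rw [← Real.log_pow]
    exact Real.log_le_log (by exact_mod_cast hA) (by exact_mod_cast hAm)
  set N₁ : ℕ := P ^ (r' * e.toNat) * Q ^ (r' * (-e).toNat) * Q' ^ (r * d) * B ^ (r * r') with hN₁
  set N₂ : ℕ := Q ^ (r' * e.toNat) * P ^ (r' * (-e).toNat) * P' ^ (r * d) * A ^ (r * r') with hN₂
  have hN₁1 : 1 ≤ N₁ := Nat.mul_pos (Nat.mul_pos (Nat.mul_pos (pow_pos hP _) (pow_pos hQ _)) (pow_pos hQ' _)) (pow_pos hB _)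
  have hN₂1 : 1 ≤ N₂ := Nat.mul_pos (Nat.mul_pos (Nat.mul_pos (pow_pos hQ _) (pow_pos hP _)) (pow_pos hP' _)) (pow_pos hA _)
  have l1 : Real.log N₁ = r' * e.toNat * Real.log P + r' * (-e).toNat * Real.log Q + r * d * Real.log Q' + r * r' * Real.log B := by
    rw [hN₁]; push_cast
    rw [Real.log_mul (by positivity) (by positivity), Real.log_mul (by positivity) (by positivity), Real.log_mul (by positivity) (by positivity),
      Real.log_pow, Real.log_pow, Real.log_pow, Real.log_pow]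
    push_cast
    ring
  have l2 : Real.log N₂ = r' * e.toNat * Real.log Q + r' * (-e).toNat * Real.log P + r * d * Real.log P' + r * r' * Real.log A := by
    rw [hN₂]; push_cast
    rw [Real.log_mul (by positivity) (by positivity), Real.log_mul (by positivity) (by positivity), Real.log_mul (by positivity) (by positivity),
      Real.log_pow, Real.log_pow, Real.log_pow, Real.log_pow]
    push_cast
    ring
  have hee : ((e.toNat : ℕ) : ℝ) - ((-e).toNat : ℕ) = e := by
    have h1 : ((e.toNat : ℕ) : ℤ) - ((-e).toNat : ℕ) = e := by omega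
    exact_mod_cast congrArg (fun z : ℤ => (z : ℝ)) h1
  have hep : ((e.toNat : ℕ) : ℝ) + ((-e).toNat : ℕ) = |(e : ℝ)| := by
    have h1 : ((e.toNat : ℕ) : ℤ) + ((-e).toNat : ℕ) = |e| := by
      rcases le_or_gt 0 e with h | h
      · rw [abs_of_nonneg h]; omega
      · rw [abs_of_neg h]; omega
    have h2 := congrArg (fun z : ℤ => (z : ℝ)) h1
    push_cast at h2
    exact h2
  have hdiff : Real.log N₁ - Real.log N₂ = r * r' * ((e : ℝ) * x - d * y - (Real.log A - Real.log B)) := by
    rw [l1, l2, ← hee]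
    linear_combination -(r' * ((e.toNat : ℕ) - ((-e).toNat : ℕ)) : ℝ) * hxr + (r * d : ℝ) * hyr
  have hR : (0 : ℝ) < r * r' := by positivity
  have hE0 : 0 ≤ E := (abs_nonneg _).trans hE
  have hN0 : 0 ≤ N := (Nat.cast_nonneg d).trans hN
  have hep1 : ((e.toNat : ℕ) : ℝ) ≤ E := by
    have : (0 : ℝ) ≤ ((-e).toNat : ℕ) := Nat.cast_nonneg _
    linarith
  have hep2 : (((-e).toNat : ℕ) : ℝ) ≤ E := by
    have : (0 : ℝ) ≤ (e.toNat : ℕ) := Nat.cast_nonneg _
    linarith
  have hr0 : (0 : ℝ) ≤ r := Nat.cast_nonneg _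
  have hr0' : (0 : ℝ) ≤ r' := Nat.cast_nonneg _
  have hup : ∀ (u v w z : ℝ) (a b : ℕ), 0 ≤ u → 0 ≤ v → 0 ≤ w → z ≤ m * Real.log 2 → (a : ℝ) ≤ E → (b : ℝ) ≤ E →
      u ≤ Real.log P + Real.log Q → v ≤ Real.log P + Real.log Q → u + v ≤ Real.log P + Real.log Q → w ≤ Real.log P' + Real.log Q' →
      r' * a * u + r' * b * v + r * d * w + r * r' * z ≤ T := by
    intro u v w z a b hu hv hw hz ha hb _ _ huv hw'
    refine le_trans ?_ hT
    have h1 : r' * a * u ≤ r' * E * u := by gcongr
    have h2 : r' * b * v ≤ r' * E * v := by gcongr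
    have h3 : (r' : ℝ) * E * u + r' * E * v ≤ r' * E * (Real.log P + Real.log Q) := by
      rw [← mul_add]; gcongr
    have h4 : (r : ℝ) * d * w ≤ r * N * (Real.log P' + Real.log Q') := by gcongr
    have h5 : (r : ℝ) * r' * z ≤ r * r' * (m * Real.log 2) := by gcongr
    have h6 : 0 ≤ (r' : ℝ) * E * (Real.log P' + Real.log Q') := by positivity
    have h7 : 0 ≤ (r : ℝ) * N * (Real.log P + Real.log Q) := by positivity
    linarith
  have heq : N₁ = N₂ := by
    refine log_gap83 (T := T) hN₁1 hN₂1 ?_ ?_ ?_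
    · rw [l1]
      exact hup _ _ _ _ _ _ hlP hlQ hlQ' (hlAm B hB hBm) hep1 hep2 (by linarith) (by linarith) le_rfl (by linarith)
    · rw [l2]
      exact hup _ _ _ _ _ _ hlQ hlP hlP' (hlAm A hA hAm) hep1 hep2 (by linarith) (by linarith) (by linarith) (by linarith)
    · rw [hdiff, abs_mul, abs_of_pos hR]
      exact lt_of_le_of_lt (mul_le_mul_of_nonneg_left hrel hR.le) hδ
  -- valuations
  have hval : ∀ p : ℕ, (r' : ℤ) * e * f p - r * d * g p = r * r' * ((A.factorization p : ℤ) - B.factorization p) := by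
    intro p
    have h1 := congrArg (fun n : ℕ => (n.factorization p : ℤ)) heq
    simp only [hN₁, hN₂] at h1
    have nz : ∀ (n k : ℕ), 1 ≤ n → n ^ k ≠ 0 := fun n k hn => pow_ne_zero _ (by omega)
    rw [Nat.factorization_mul (mul_ne_zero (mul_ne_zero (nz _ _ hP) (nz _ _ hQ)) (nz _ _ hQ')) (nz _ _ hB),
      Nat.factorization_mul (mul_ne_zero (nz _ _ hP) (nz _ _ hQ)) (nz _ _ hQ'),
      Nat.factorization_mul (nz _ _ hP) (nz _ _ hQ),
      Nat.factorization_mul (mul_ne_zero (mul_ne_zero (nz _ _ hQ) (nz _ _ hP)) (nz _ _ hP')) (nz _ _ hA),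
      Nat.factorization_mul (mul_ne_zero (nz _ _ hQ) (nz _ _ hP)) (nz _ _ hP'),
      Nat.factorization_mul (nz _ _ hQ) (nz _ _ hP)] at h1
    simp only [Nat.factorization_pow, Finsupp.add_apply, Finsupp.smul_apply, smul_eq_mul] at h1
    push_cast at h1
    have hee' : (e.toNat : ℤ) - ((-e).toNat : ℕ) = e := by omega
    rw [hf, hg]
    simp only
    rw [← hee']
    push_cast
    linear_combination h1
  have hw : ∀ (A : ℕ), 1 ≤ A → A ≤ 2 ^ m → ∀ p, (A.factorization p : ℤ) ≤ m := by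
    intro A hA hAm p
    by_cases hp : p.Prime
    · have h1 : 2 ^ A.factorization p ≤ 2 ^ m := by
        calc 2 ^ A.factorization p ≤ p ^ A.factorization p := Nat.pow_le_pow_left hp.two_le _
          _ ≤ A := Nat.ordProj_le p (by omega)
          _ ≤ 2 ^ m := hAm
      exact_mod_cast (Nat.pow_le_pow_iff_right (by norm_num)).1 h1
    · rw [Nat.factorization_eq_zero_of_not_prime _ hp]
      simp
  have hwd : ∀ p, |(A.factorization p : ℤ) - B.factorization p| ≤ m := by
    intro p
    have h1 := hw A hA hAm p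
    have h2 := hw B hB hBm p
    have h3 : (0 : ℤ) ≤ A.factorization p := Int.natCast_nonneg _
    have h4 : (0 : ℤ) ≤ B.factorization p := Int.natCast_nonneg _
    rw [abs_le]
    constructor <;> linarith
  have hvp := hval p
  have hvq := hval q
  set wp : ℤ := (A.factorization p : ℤ) - B.factorization p with hwp
  set wq : ℤ := (A.factorization q : ℤ) - B.factorization q with hwq
  have hmain : (r : ℤ) * (d * (f p * g q - f q * g p)) = r * (r' * (f q * wp - f p * wq)) := by
    linear_combination f q * hvp - f p * hvq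
  have hr1 : (r : ℤ) ≠ 0 := by
    have : (1 : ℤ) ≤ r := by exact_mod_cast hr
    omega
  have hmain2 := mul_left_cancel₀ hr1 hmain
  have hab := congrArg abs hmain2
  rw [abs_mul, abs_mul] at hab
  have hΔ : 1 ≤ |f p * g q - f q * g p| := Int.one_le_abs hpq
  have hd0 : (0 : ℤ) ≤ d := Int.natCast_nonneg _
  have hr0z : (0 : ℤ) ≤ r' := Int.natCast_nonneg _
  have hup2 : |f q * wp - f p * wq| ≤ (|f p| + |f q|) * m := by
    calc |f q * wp - f p * wq| ≤ |f q * wp| + |f p * wq| := abs_sub _ _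
      _ = |f q| * |wp| + |f p| * |wq| := by rw [abs_mul, abs_mul]
      _ ≤ |f q| * m + |f p| * m := add_le_add (mul_le_mul_of_nonneg_left (hwd p) (abs_nonneg _)) (mul_le_mul_of_nonneg_left (hwd q) (abs_nonneg _))
      _ = _ := by ring
  rw [abs_of_nonneg hd0, abs_of_nonneg hr0z] at hab
  have hfin : (d : ℤ) ≤ r' * ((|f p| + |f q|) * m) := by
    calc (d : ℤ) = d * 1 := (mul_one _).symm
      _ ≤ d * |f p * g q - f q * g p| := mul_le_mul_of_nonneg_left hΔ hd0
      _ = r' * |f q * wp - f p * wq| := hab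
      _ ≤ _ := mul_le_mul_of_nonneg_left hup2 hr0z
  have hcast : (((r' * ((f p).natAbs + (f q).natAbs) * m : ℕ)) : ℤ) = r' * ((|f p| + |f q|) * m) := by
    push_cast
    ring
  rw [← hcast] at hfin
  exact_mod_cast hfin

end Pool.Agent.Helper83.LD4
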